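import Pool.Agent.Helper75.FU.StG
import Pool.Agent.Helper85.GU.M_B4

/-!
# Project FU, module G2: patching
-/

set_option autoImplicit false

namespace Pool.Agent.Helper40.FU

open Polynomial Pool.Agent.Helper75.FU Pool.Agent.Helper91.GU
open Pool.Agent.Helper85.GU (lowU_map upV_map lowU_det upV_det lowU_mul upV_mul lowU_zero upV_zero
  row_lowU row_upV row_diag row_low mp_row mem_idl block_id)

universe u

theorem theta_mul {A : Type u} [CommRing A] {r : ℕ} (c t y : Fin r → A) (a : A)
    (hy : c ⬝ᵥ y = a - 1) :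
    theta c t * theta c y = theta c (fun j => y j + a * t j) := by
  unfold theta
  ext i j
  simp only [Matrix.mul_apply, Matrix.add_apply, Matrix.vecMulVec_apply, Matrix.one_apply]
  have h1 : ∑ x, ((if i = x then (1 : A) else 0) + t i * c x) *
      ((if x = j then 1 else 0) + y x * c j)
      = (if i = j then 1 else 0) + y i * c j + t i * c j + t i * (c ⬝ᵥ y) * c j := by
    have h2 : ∀ x, ((if i = x then (1 : A) else 0) + t i * c x) *
      ((if x = j then 1 else 0) + y x * c j)
      = (if i = x then (if x = j then (1 : A) else 0) + y x * c j else 0)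
        + (if x = j then t i * c x else 0) + t i * (c x * y x) * c j := by
      intro x
      split_ifs <;> ring
    simp only [h2, Finset.sum_add_distrib, Finset.sum_ite_eq, Finset.sum_ite_eq', Finset.mem_univ,
      if_true, dotProduct, Finset.mul_sum, Finset.sum_mul]
  rw [h1, hy]
  ring

theorem hG2 (hA4 : Pool.Agent.Helper91.GU.StA4.{u}) (hB0 : Pool.Agent.Helper91.GU.StB0.{u})
    (hB3 : Pool.Agent.Helper91.GU.StB3.{u}) : StG2.{u} := by
  intro A Af Ai Afi _ _ _ _ _ _ _ _ _ f i hsq r a ω c haf hωf hci hsplit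
  have := hsq.towf
  have := hsq.towi
  obtain ⟨z, hz⟩ := mem_idl hci
  obtain ⟨au, hau⟩ := haf
  obtain ⟨wu, hwu⟩ := hωf
  set a' : Af := ((au⁻¹ : Afˣ) : Af) with ha'
  set ω' : Af := ((wu⁻¹ : Afˣ) : Af) with hω'
  have haa : algebraMap A Af a * a' = 1 := by rw [← hau, ha']; exact Units.mul_inv au
  have hww : algebraMap A Af ω * ω' = 1 := by rw [← hwu, hω']; exact Units.mul_inv wu
  have hf : ∀ x : A, algebraMap Af Afi (algebraMap A Af x) = algebraMap A Afi x := fun x =>
    (IsScalarTower.algebraMap_apply A Af Afi x).symm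
  have hi : ∀ x : A, algebraMap Ai Afi (algebraMap A Ai x) = algebraMap A Afi x := fun x =>
    (IsScalarTower.algebraMap_apply A Ai Afi x).symm
  -- the data over `Afi`
  set cF : Fin r → Afi := mp (algebraMap A Afi) c with hcF
  set zF : Fin r → Afi := fun j => algebraMap Ai Afi (z j) with hzF
  set aF : Afi := algebraMap A Afi a with haF
  set wF : Afi := algebraMap A Afi ω with hwF
  set aF' : Afi := algebraMap Af Afi a' with haF'
  set wF' : Afi := algebraMap Af Afi ω' with hwF'
  have haaF : aF * aF' = 1 := by rw [haF, haF', ← hf, ← map_mul, haa, map_one]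
  have hwwF : wF * wF' = 1 := by rw [hwF, hwF', ← hf, ← map_mul, hww, map_one]
  have hcz : cF ⬝ᵥ zF = 1 := by
    have h1 := congrArg (algebraMap Ai Afi) hz
    rw [map_one] at h1
    rw [h1]
    simp only [dotProduct, map_sum, map_mul, hcF, hzF, mp, hi]
  have hcs : ∀ s : Afi, cF ⬝ᵥ (fun j => s * zF j) = s := by
    intro s
    have : cF ⬝ᵥ (fun j => s * zF j) = s * (cF ⬝ᵥ zF) := by
      simp only [dotProduct, Finset.mul_sum]
      exact Finset.sum_congr rfl fun j _ => by ring
    rw [this, hcz, mul_one]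
  set ya : Fin r → Afi := fun j => (aF - 1) * zF j with hya
  set yb : Fin r → Afi := fun j => (aF * wF - 1) * zF j with hyb
  set t : Fin r → Afi := fun j => (wF - 1) * zF j with ht
  have hcya : cF ⬝ᵥ ya = aF - 1 := hcs _
  have hcyb : cF ⬝ᵥ yb = aF * wF - 1 := hcs _
  have hct : cF ⬝ᵥ t = wF - 1 := hcs _
  obtain ⟨δ, k, hδ, hk, hθ⟩ := hsplit t hct
  have haFu : IsUnit aF := IsUnit.of_mul_eq_one _ haaF
  have hdetA : (theta cF ya).det = aF := (hB3 Afi r cF ya ya aF haFu hcya).1
  have hdetAu : IsUnit (theta cF ya).det := by rw [hdetA]; exact haFu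
  have hprod : theta cF yb = theta cF t * theta cF ya := by
    rw [theta_mul cF t ya aF hcya]
    congr 1
    ext1 j
    simp only [hya, hyb, ht]
    ring
  set k1 : Matrix (Fin r) (Fin r) Afi := (theta cF ya)⁻¹ * k * theta cF ya with hk1
  have hk1H : HId k1 := ((hB0 Afi Afi (RingHom.id Afi) (Fin r)).2.2.2.1 k (theta cF ya) hk hdetAu).2
  obtain ⟨P, hPu, hP0, hP1⟩ := hk1H
  -- the matrices
  set cf : Fin r → Af := mp (algebraMap A Af) c with hcf
  set gi : Matrix (Unit ⊕ Fin r) (Unit ⊕ Fin r) Ai :=
    lowU (fun j => (algebraMap A Ai a - algebraMap A Ai a * algebraMap A Ai ω) * z j) with hgi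
  set gf : Matrix (Unit ⊕ Fin r) (Unit ⊕ Fin r) Af :=
    upV (fun j => a' * cf j) * (Matrix.fromBlocks (fun _ _ => algebraMap A Af ω) 0 0 δ⁻¹ *
      upV (fun j => -(a' * ω' * cf j))) with hgf
  set δm : Matrix (Fin r) (Fin r) Afi := δ⁻¹.map (algebraMap Af Afi) with hδm
  set x : Fin r → Afi := Matrix.mulVec (theta cF ya)⁻¹
    (fun j => ya j - (Matrix.mulVec δm yb) j) with hx
  set h : Matrix (Unit ⊕ Fin r) (Unit ⊕ Fin r) Afi[X] :=
    lowU (fun j => C (ya j)) * upV (fun j => C (cF j)) *
      (Matrix.fromBlocks 1 0 (fun i _ => C (x i) * X) P) *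
      (upV (fun j => -C (cF j)) * lowU (fun j => -C (ya j))) with hh
  have hev : ∀ (b : Afi) (Q R : Matrix (Unit ⊕ Fin r) (Unit ⊕ Fin r) Afi[X]),
      (Q * R).map (eval b) = Q.map (eval b) * R.map (eval b) := by
    intro b Q R
    have := Matrix.map_mul (L := Q) (M := R) (f := evalRingHom b)
    simpa [Polynomial.coe_evalRingHom] using this
  have hlow : ∀ (b : Afi) (q : Fin r → Afi[X]), (lowU q).map (eval b) = lowU (fun j => (q j).eval b) := by
    intro b q
    have := lowU_map (evalRingHom b) q
    simpa [Polynomial.coe_evalRingHom] using this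
  have hup : ∀ (b : Afi) (q : Fin r → Afi[X]), (upV q).map (eval b) = upV (fun j => (q j).eval b) := by
    intro b q
    have := upV_map (evalRingHom b) q
    simpa [Polynomial.coe_evalRingHom] using this
  have hmid : ∀ b : Afi, (Matrix.fromBlocks (1 : Matrix Unit Unit Afi[X]) 0
      (fun i _ => C (x i) * X) P).map (eval b)
      = Matrix.fromBlocks 1 0 (fun i _ => x i * b) (P.map (eval b)) := by
    intro b
    ext p q
    rcases p with p | p <;> rcases q with q | q <;> simp [Matrix.fromBlocks, Matrix.one_apply]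
  have hVV : ∀ q : Fin r → Afi, upV q * upV (fun j => -q j) = 1 := by
    intro q
    rw [upV_mul]
    simp only [add_neg_cancel]
    exact upV_zero
  have hUU : ∀ q : Fin r → Afi, lowU q * lowU (fun j => -q j) = 1 := by
    intro q
    rw [lowU_mul]
    simp only [add_neg_cancel]
    exact lowU_zero
  have hT : ∀ q : Fin r → Afi,
      (lowU q * upV cF) * (upV (fun j => -cF j) * lowU (fun j => -q j)) = 1 := by
    intro q
    rw [Matrix.mul_assoc, ← Matrix.mul_assoc (upV cF), hVV, Matrix.one_mul, hUU]
  have hdet1 : gi.det = 1 := lowU_det _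
  have hdetf : IsUnit gf.det := by
    rw [hgf, Matrix.det_mul, Matrix.det_mul, upV_det, upV_det]
    rw [Matrix.det_fromBlocks_zero₁₂]
    rw [Matrix.det_nonsing_inv]
    simp only [one_mul, mul_one]
    refine IsUnit.mul ?_ ?_
    · rw [Matrix.det_unique]
      exact ⟨wu, hwu⟩
    · rw [Ring.inverse_of_isUnit hδ]
      exact Units.isUnit _
  have hdeth : IsUnit h.det := by
    rw [hh, Matrix.det_mul, Matrix.det_mul, Matrix.det_mul, Matrix.det_mul, lowU_det, upV_det,
      upV_det, lowU_det, Matrix.det_fromBlocks_zero₁₂]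
    simpa using hPu
  refine hA4 A Af Ai Afi f i hsq (Unit ⊕ Fin r) (row a c) (row (a * ω) c) gf gi h hdetf
    (by rw [hdet1]; exact isUnit_one) hdeth ?_ ?_ ?_ ?_ ?_
  · -- over `Af`
    rw [mp_row, mp_row, hgf]
    simp only [← Matrix.vecMul_vecMul]
    rw [row_upV, row_diag, row_upV]
    have h2 : Matrix.vecMul (fun j => mp (algebraMap A Af) c j
        - algebraMap A Af a * (a' * cf j)) δ⁻¹ = (0 : Fin r → Af) := by
      have : (fun j => mp (algebraMap A Af) c j - algebraMap A Af a * (a' * cf j)) = 0 := by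
        ext1 j
        simp only [Pi.zero_apply]
        have : mp (algebraMap A Af) c j = cf j := rfl
        rw [this]
        linear_combination (-cf j) * haa
      rw [this, Matrix.zero_vecMul]
    rw [h2, map_mul]
    congr 1
    ext1 j
    simp only [Pi.zero_apply]
    have : mp (algebraMap A Af) c j = cf j := rfl
    rw [this]
    linear_combination (cf j * (algebraMap A Af ω * ω')) * haa + cf j * hww
  · -- over `Ai`
    rw [mp_row, mp_row, hgi, row_lowU]
    have h4 : mp (algebraMap A Ai) c ⬝ᵥ
        (fun j => (algebraMap A Ai a - algebraMap A Ai a * algebraMap A Ai ω) * z j)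
        = (algebraMap A Ai a - algebraMap A Ai a * algebraMap A Ai ω) := by
      have : mp (algebraMap A Ai) c ⬝ᵥ
        (fun j => (algebraMap A Ai a - algebraMap A Ai a * algebraMap A Ai ω) * z j)
        = (algebraMap A Ai a - algebraMap A Ai a * algebraMap A Ai ω) *
          (mp (algebraMap A Ai) c ⬝ᵥ z) := by
        simp only [dotProduct, Finset.mul_sum]
        exact Finset.sum_congr rfl fun j _ => by ring
      rw [this, ← hz, mul_one]
    rw [h4, map_mul]
    congr 1
    ring
  · -- fixes the row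
    have hrow : (fun j => C (algebraMap A Afi (row a c j)))
        = row (C aF) (fun j => C (cF j)) := by
      ext1 j
      rcases j with j | j <;> simp [row, haF, hcF, mp]
    rw [hrow, hh]
    simp only [← Matrix.vecMul_vecMul]
    rw [row_lowU, row_upV]
    have h1 : C aF - (fun j => C (cF j)) ⬝ᵥ (fun j => C (ya j)) = (1 : Afi[X]) := by
      have : (fun j => C (cF j)) ⬝ᵥ (fun j => C (ya j)) = C (cF ⬝ᵥ ya) := by
        simp only [dotProduct, map_sum, map_mul]
      rw [this, hcya, map_sub, map_one]
      ring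
    rw [h1]
    have h2 : (fun j => C (cF j) - 1 * C (cF j)) = (0 : Fin r → Afi[X]) := by
      ext1 j
      simp
    rw [h2, row_low (fun i => C (x i) * X) P, row_upV, row_lowU]
    have h3 : (fun j => (0 : Fin r → Afi[X]) j - 1 * -C (cF j)) = fun j => C (cF j) := by
      ext1 j
      simp
    rw [h3]
    congr 1
    have : (fun j => C (cF j)) ⬝ᵥ (fun j => -C (ya j)) = -C (cF ⬝ᵥ ya) := by
      simp only [dotProduct, map_sum, map_mul, ← Finset.sum_neg_distrib]
      exact Finset.sum_congr rfl fun j _ => by ring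
    rw [this, hcya, map_sub, map_one]
    ring
  · rw [hh, hev, hev, hev, hev, hlow, hup, hmid, hup, hlow, hP0]
    simp only [eval_C, eval_neg, mul_zero]
    have h1 : (Matrix.fromBlocks 1 0 (fun (i : Fin r) (_ : Unit) => (0 : Afi)) 1
        : Matrix (Unit ⊕ Fin r) (Unit ⊕ Fin r) Afi) = 1 := Matrix.fromBlocks_one
    rw [h1, Matrix.mul_one]
    exact hT ya
  · rw [hh, hev, hev, hev, hev, hlow, hup, hmid, hup, hlow, hP1]
    simp only [eval_C, eval_neg, mul_one]
    have hgfm : gf.map (algebraMap Af Afi) = upV (fun j => aF' * cF j) *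
        (Matrix.fromBlocks (fun _ _ => wF) 0 0 δm * upV (fun j => -(aF' * wF' * cF j))) := by
      rw [hgf, Matrix.map_mul, Matrix.map_mul, upV_map, upV_map, Matrix.fromBlocks_map]
      congr 1
      · congr 1
        ext1 j
        simp [hcf, hcF, mp, hf, haF']
      · congr 1
        · congr 1
          · ext p q
            simp [hwF, hf]
          · ext p q
            simp
          · ext p q
            simp
        · congr 1
          ext1 j
          simp [hcf, hcF, mp, hf, haF', hwF']
    have hgim : gi.map (algebraMap Ai Afi) = lowU (fun j => (aF - aF * wF) * zF j) := by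
      rw [hgi, lowU_map]
      congr 1
      ext1 j
      simp [haF, hwF, hi, hzF]
    -- the two block identities
    set M1 : Matrix (Unit ⊕ Fin r) (Unit ⊕ Fin r) Afi :=
      Matrix.fromBlocks 1 0 (fun i _ => x i) k1 with hM1
    have hb1 := block_id aF aF' haaF cF ya hcya (1 : Matrix (Fin r) (Fin r) Afi)
    have hbb : (aF * wF) * (aF' * wF') = 1 := by
      linear_combination (wF * wF') * haaF + hwwF
    have hb2 := block_id (aF * wF) (aF' * wF') hbb cF yb hcyb δm
    have hδδ : δm * δ.map (algebraMap Af Afi) = 1 := by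
      rw [hδm, ← Matrix.map_mul, Matrix.nonsing_inv_mul _ hδ,
        Matrix.map_one _ (map_zero _) (map_one _)]
    have hlr : theta cF ya * k1 = δm * theta cF yb := by
      rw [hk1, hprod, hθ, Matrix.mul_assoc (theta cF ya)⁻¹, ← Matrix.mul_assoc (theta cF ya),
        Matrix.mul_nonsing_inv _ hdetAu, Matrix.one_mul]
      rw [← Matrix.mul_assoc, ← Matrix.mul_assoc, hδδ, Matrix.one_mul]
    have hll : Matrix.mulVec (theta cF ya) x = fun j => ya j - (Matrix.mulVec δm yb) j := by
      rw [hx, Matrix.mulVec_mulVec, Matrix.mul_nonsing_inv _ hdetAu, Matrix.one_mulVec]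
    have hNM : (Matrix.fromBlocks 1 0 (fun i _ => - (Matrix.mulVec (1 : Matrix (Fin r) (Fin r) Afi)
        ya) i) (1 * theta cF ya) : Matrix (Unit ⊕ Fin r) (Unit ⊕ Fin r) Afi) * M1
        = Matrix.fromBlocks 1 0 (fun i _ => - (Matrix.mulVec δm yb) i) (δm * theta cF yb) := by
      rw [hM1, Matrix.fromBlocks_multiply]
      congr 1
      · simp
      · simp
      · ext p q
        have h5 := congrFun hll p
        simp only [Matrix.add_apply, Matrix.mul_apply, Matrix.one_mul, Matrix.one_mulVec]
        simp only [Matrix.mulVec, dotProduct] at h5 ⊢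
        simp only [Finset.univ_unique, Finset.sum_singleton, Matrix.one_apply_eq, mul_one]
        rw [h5]
        ring
      · rw [Matrix.one_mul, ← hlr]
        simp
    rw [← hb1, ← hb2] at hNM
    -- cancel the diagonal matrix
    have hDD : (Matrix.fromBlocks (fun _ _ => aF') 0 0 1 : Matrix (Unit ⊕ Fin r) (Unit ⊕ Fin r) Afi)
        * Matrix.fromBlocks (fun _ _ => aF) 0 0 1 = 1 := by
      rw [Matrix.fromBlocks_multiply]
      have : (1 : Matrix (Unit ⊕ Fin r) (Unit ⊕ Fin r) Afi) = Matrix.fromBlocks 1 0 0 1 :=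
        Matrix.fromBlocks_one.symm
      rw [this]
      congr 1
      · ext p q
        have : p = q := Subsingleton.elim _ _
        simp [Matrix.mul_apply, this]
        linear_combination haaF
      · simp
      · simp
      · simp
    have hDF : (Matrix.fromBlocks (fun _ _ => aF') 0 0 1 : Matrix (Unit ⊕ Fin r) (Unit ⊕ Fin r) Afi)
        * Matrix.fromBlocks (fun _ _ => aF * wF) 0 0 δm
        = Matrix.fromBlocks (fun _ _ => wF) 0 0 δm := by
      rw [Matrix.fromBlocks_multiply]
      congr 1
      · ext p q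
        simp [Matrix.mul_apply]
        linear_combination wF * haaF
      · simp
      · simp
      · simp
    have h6 : upV (fun j => -(aF' * cF j)) * (lowU ya * upV cF) * M1
        = Matrix.fromBlocks (fun _ _ => wF) 0 0 δm *
          (upV (fun j => -(aF' * wF' * cF j)) * (lowU yb * upV cF)) := by
      have h7 := congrArg (fun Z => (Matrix.fromBlocks (fun _ _ => aF') 0 0 1 :
        Matrix (Unit ⊕ Fin r) (Unit ⊕ Fin r) Afi) * Z) hNM
      simp only [← Matrix.mul_assoc] at h7
      rw [hDD, hDF, Matrix.one_mul] at h7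
      simp only [← Matrix.mul_assoc]
      exact h7
    have h8 : lowU ya * upV cF * M1 = upV (fun j => aF' * cF j) *
        (Matrix.fromBlocks (fun _ _ => wF) 0 0 δm *
          (upV (fun j => -(aF' * wF' * cF j)) * (lowU yb * upV cF))) := by
      rw [← h6, ← Matrix.mul_assoc, ← Matrix.mul_assoc, hVV, Matrix.one_mul]
    rw [hgfm, hgim]
    have h9 : lowU (fun j => -ya j) * lowU (fun j => (aF - aF * wF) * zF j)
        = lowU (fun j => -yb j) := by
      rw [lowU_mul]
      congr 1
      ext1 j
      simp only [hya, hyb]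
      ring
    have hM1' : (Matrix.fromBlocks 1 0 (fun i _ => x i) k1
        : Matrix (Unit ⊕ Fin r) (Unit ⊕ Fin r) Afi) = M1 := rfl
    have e : ∀ (L F V T : Matrix (Unit ⊕ Fin r) (Unit ⊕ Fin r) Afi),
        L * (F * V) * T = L * (F * (V * T)) := by
      intro L F V T
      simp only [Matrix.mul_assoc]
    rw [e, h9, h8]
    have e2 : ∀ (L F V T U W : Matrix (Unit ⊕ Fin r) (Unit ⊕ Fin r) Afi),
        L * (F * (V * T)) * (U * W) = L * (F * (V * (T * (U * W)))) := by
      intro L F V T U W
      simp only [Matrix.mul_assoc]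
    rw [e2, hT yb, Matrix.mul_one]

end Pool.Agent.Helper40.FU
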